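import Mathlib
import Pool.Agent.H83.BetaCard

set_option autoImplicit false

namespace Pool.Agent.Results.MP_41ff45_gt.Hausdorff

open Set Filter Topology

/-- `k`-covers. -/
def KCover {X : Type} [TopologicalSpace X] (𝒰 : Set (Set X)) : Prop :=
  (∀ U ∈ 𝒰, IsOpen U) ∧ ⋃₀ 𝒰 = univ ∧ ∀ K : Set X, IsCompact K → ∃ U ∈ 𝒰, K ⊆ U

/-- P2 has a winning Markov strategy in `G_fin(K_X, K_X)`. -/
def MarkovKMenger (X : Type) [TopologicalSpace X] : Prop :=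
  ∃ σ : Set (Set X) → ℕ → Set (Set X),
    (∀ 𝒰 n, KCover 𝒰 → σ 𝒰 n ⊆ 𝒰 ∧ (σ 𝒰 n).Finite) ∧
    ∀ 𝒰 : ℕ → Set (Set X), (∀ n, KCover (𝒰 n)) → KCover (⋃ n, σ (𝒰 n) n)

/-- P2 has a winning Markov strategy in `G_1(K_X, K_X)`. -/
def MarkovKRothberger (X : Type) [TopologicalSpace X] : Prop :=
  ∃ σ : Set (Set X) → ℕ → Set X, (∀ 𝒰 n, KCover 𝒰 → σ 𝒰 n ∈ 𝒰) ∧
    ∀ 𝒰 : ℕ → Set (Set X), (∀ n, KCover (𝒰 n)) → KCover (range fun n => σ (𝒰 n) n)

def Sp (_ : Ultrafilter ℕ → ℕ) : Type := Ultrafilter ℕ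

variable {l : Ultrafilter ℕ → ℕ}

def toZ (x : Sp l) : Ultrafilter ℕ := x

instance : TopologicalSpace (Sp l) where
  IsOpen W := ∀ x ∈ W, ∀ n, ∀ᶠ z in 𝓝 (toZ x), l z < n → (show Sp l from z) ∈ W
  isOpen_univ := by simp
  isOpen_inter := fun V W hV hW x hx n => ((hV x hx.1 n).and (hW x hx.2 n)).mono
    fun z hz h => ⟨hz.1 h, hz.2 h⟩
  isOpen_sUnion := fun T hT x ⟨W, hW, hx⟩ n => (hT W hW x hx n).mono fun z hz h => ⟨W, hW, hz h⟩

theorem cont : Continuous (toZ : Sp l → Ultrafilter ℕ) :=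
  ⟨fun _ hU _ hx _ => mem_of_superset (hU.mem_nhds hx) fun _ hz _ => hz⟩

instance : T2Space (Sp l) := T2Space.of_injective_continuous (f := toZ) (fun _ _ h => h) cont

theorem closed_of {E : Set (Sp l)} (h : ∀ n, (E ∩ {x | l (toZ x) < n}).Finite) : IsClosed E :=
  ⟨fun x hx n => mem_of_superset ((Finite.isClosed (X := Ultrafilter ℕ) (h n)).isOpen_compl.mem_nhds
    (show toZ x ∈ _ from fun h => hx h.1)) fun _ hz hl hE => hz ⟨hE, hl⟩⟩

theorem compact_finite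
    (hl : ∀ K : Set (Ultrafilter ℕ), K.Infinite → IsClosed K → ∀ n, ∃ z ∈ K, l z = n)
    {K : Set (Sp l)} (hK : IsCompact K) : K.Finite := by
  by_contra hinf
  choose z hz hlz using hl (toZ '' K) (Infinite.image (fun _ _ _ _ h => h) hinf)
    (hK.image cont).isClosed
  have hinj : Function.Injective z := fun a b h => by rw [← hlz a, h, hlz]
  have hcl : ∀ E : Set (Sp l), E ⊆ range z → IsClosed E := fun E hE => closed_of fun n =>
    ((finite_lt_nat n).image z).subset fun x hx => by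
      obtain ⟨m, rfl⟩ := hE hx.1
      exact ⟨m, (hlz m).symm.trans_lt hx.2, rfl⟩
  have hsub : (range z : Set (Sp l)) ⊆ K := by
    rintro _ ⟨m, rfl⟩
    obtain ⟨y, hy, e⟩ := hz m
    exact e ▸ hy
  refine infinite_range_of_injective hinj ((hK.of_isClosed_subset (hcl _ Subset.rfl) hsub).finite ?_)
  rw [isDiscrete_iff_forall_exists_isOpen]
  intro x hx
  refine ⟨((range z : Set (Sp l)) \ {x})ᶜ, (hcl _ diff_subset).isOpen_compl, ?_⟩
  ext y
  simp only [mem_inter_iff, mem_compl_iff, mem_diff, mem_singleton_iff]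
  constructor
  · rintro ⟨h1, h2⟩
    by_contra h
    exact h1 ⟨h2, h⟩
  · rintro rfl
    exact ⟨fun h => h.2 rfl, hx⟩

theorem step (𝒰 : Set (Set (Sp l))) (n : ℕ) : ∃ ℱ : Set (Set (Sp l)), KCover 𝒰 →
    (ℱ ⊆ 𝒰 ∧ ℱ.Finite) ∧ ∀ s : Fin n → Sp l, (∀ i, l (toZ (s i)) < n) → ∃ U ∈ ℱ, range s ⊆ U := by
  by_cases h : KCover 𝒰
  swap
  · exact ⟨∅, fun h' => (h h').elim⟩
  choose U hU hsub using fun t : Fin n → Ultrafilter ℕ =>
    h.2.2 (range t) (Finite.isCompact (X := Sp l) (finite_range t))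
  obtain ⟨T, hT⟩ := CompactSpace.elim_nhds_subcover
    (fun t : Fin n → Ultrafilter ℕ => {s | ∀ i, l (s i) < n → (show Sp l from s i) ∈ U t})
    fun t => eventually_all.2 fun i => ((continuous_apply i).tendsto t).eventually
      (h.1 _ (hU t) _ (hsub t ⟨i, rfl⟩) n)
  refine ⟨U '' T, fun _ => ⟨⟨by rintro _ ⟨t, -, rfl⟩; exact hU t, T.finite_toSet.image U⟩,
    fun s hs => ?_⟩⟩
  obtain ⟨t, ht, h'⟩ := mem_iUnion₂.1 (hT.ge (mem_univ (fun i => toZ (s i))))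
  exact ⟨U t, mem_image_of_mem U ht, range_subset_iff.2 fun i => h' i (hs i)⟩

theorem result : ∃ (X : Type) (_ : TopologicalSpace X), T2Space X ∧
    MarkovKMenger X ∧ ¬ MarkovKRothberger X := by
  obtain ⟨l, hl⟩ := H83.BetaCard.exists_level
  refine ⟨Sp l, inferInstance, inferInstance, ?_, ?_⟩
  · choose σ hσ using step (l := l)
    refine ⟨σ, fun 𝒰 n h => (hσ 𝒰 n h).1, fun 𝒰 h => ?_⟩
    have key : ∀ K : Set (Sp l), IsCompact K → ∃ U ∈ ⋃ n, σ (𝒰 n) n, K ⊆ U := fun K hK => by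
      have hf := (compact_finite hl hK).insert (pure 0 : Ultrafilter ℕ)
      obtain ⟨e, he⟩ := hf.countable.exists_eq_range (insert_nonempty _ _)
      have h1 : ∀ᶠ n in atTop, ∀ x ∈ insert (show Sp l from (pure 0 : Ultrafilter ℕ)) K,
          l (toZ x) < n ∧ ∃ i < n, e i = x := (eventually_all_finite hf).2 fun x hx => by
        obtain ⟨i, hi⟩ := he ▸ hx
        filter_upwards [eventually_gt_atTop (l (toZ x)), eventually_gt_atTop i] with n h1 h2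
        exact ⟨h1, i, h2, hi⟩
      obtain ⟨n, hn⟩ := h1.exists
      obtain ⟨U, hU, hs⟩ := (hσ _ n (h n)).2 (fun i => e i) fun i => (hn _ (he ▸ ⟨_, rfl⟩)).1
      refine ⟨U, mem_iUnion.2 ⟨n, hU⟩, fun x hx => ?_⟩
      obtain ⟨i, hi, rfl⟩ := (hn x (Or.inr hx)).2
      exact hs ⟨⟨i, hi⟩, rfl⟩
    refine ⟨fun U hU => ?_, eq_univ_of_forall fun x => ?_, key⟩
    · obtain ⟨n, hn⟩ := mem_iUnion.1 hU
      exact (h n).1 U ((hσ _ n (h n)).1.1 hn)
    · obtain ⟨U, hU, hx⟩ := key {x} isCompact_singleton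
      exact ⟨U, hU, hx rfl⟩
  · rintro ⟨σ, h1, h2⟩
    have : ∀ n, ∃ C : Set (Sp l), IsCompact C ∧ ∀ U, IsOpen U → C ⊆ U →
        ∃ 𝒰, KCover 𝒰 ∧ σ 𝒰 n = U := fun n => by
      by_contra h
      push Not at h
      have hk : KCover {U : Set (Sp l) | IsOpen U ∧ ∀ 𝒰, KCover 𝒰 → σ 𝒰 n ≠ U} := by
        refine ⟨fun U hU => hU.1, eq_univ_of_forall fun x => ?_, fun K hK => ?_⟩
        · obtain ⟨U, hU, hx, h'⟩ := h {x} isCompact_singleton
          exact ⟨U, ⟨hU, h'⟩, hx rfl⟩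
        · obtain ⟨U, hU, hx, h'⟩ := h K hK
          exact ⟨U, ⟨hU, h'⟩, hx⟩
      exact (h1 _ n hk).2 _ hk rfl
    choose C hC hCU using this
    obtain ⟨x, hx⟩ : ∃ x, x ∉ ⋃ n, C n := by
      by_contra h
      push Not at h
      exact not_countable_univ (α := Ultrafilter ℕ) ((countable_iUnion fun n =>
        (compact_finite hl (hC n)).countable).mono fun x _ => h x)
    choose 𝒰 hk he using fun n => hCU n {x}ᶜ isOpen_compl_singleton fun y hy e =>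
      hx (mem_iUnion.2 ⟨n, (mem_singleton_iff.1 e) ▸ hy⟩)
    obtain ⟨_, ⟨n, rfl⟩, hn⟩ := (h2 𝒰 hk).2.2 {x} isCompact_singleton
    exact (he n ▸ hn rfl : x ∈ ({x}ᶜ : Set _)) rfl

end Pool.Agent.Results.MP_41ff45_gt.Hausdorff
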